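import Pool.Agent.helper73.AB.Num
import Pool.Agent.helper25.ST.Defs
import Pool.Agent.helper89.Segre.Results

set_option autoImplicit false

/-!
# Almost all linear systems are non-special in every degree, exponent `1 / 3 - e`

From `exactG` (project SG): all multiplicities `≤ M` and `C (M + 1) ^ (1 + ε) ≤ d` imply that the
system of degree `d` is non-special.
-/

namespace Pool.Agent.helper73.AB

open MvPolynomial Pool.Agent.helper89.Segre Pool.Agent.SH9 Pool.Agent.helper25.ST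
open Pool.Agent.helper73.AA

/-- the statement of `exactG` for one `ε` -/
def ExactEps (ε C : ℝ) : Prop :=
  ∀ (d M : ℕ) (ms : Multiset ℕ), (∀ m ∈ ms, m ≤ M) → C * ((M : ℝ) + 1) ^ (1 + ε) ≤ d →
    Good ℂ (tri d) ms (min (cd ms) (tri d).card)

theorem nonspecial_all {ε C : ℝ} (H : ExactEps ε C) {h : ℕ} {m : Fin h → ℕ} {N M d0 : ℕ}
    (hM : ∀ i, m i ≤ M) (hN : ∑ i, (m i + 1).choose 2 = N) (h1 : (d0 + 2).choose 2 ≤ N)
    (hC : C * ((M : ℝ) + 1) ^ (1 + ε) ≤ d0) (d : ℕ) : NonSpecial d m := by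
  have hcd : cd (Finset.univ.val.map m) = ∑ k, (m k + 1).choose 2 := sumkk_eq m
  have hms : ∀ μ ∈ (Finset.univ.val.map m : Multiset ℕ), μ ≤ M := by
    intro μ hμ
    obtain ⟨i, _, rfl⟩ := Multiset.mem_map.mp hμ
    exact hM i
  apply generic_of_good
  rcases Nat.le_total d0 d with hd | hd
  · have hG := H d M _ hms (hC.trans (Nat.cast_le.mpr hd))
    rw [hcd, card_tri] at hG
    exact hG
  · have hG := H d0 M _ hms hC
    rw [hcd, card_tri, hN, Nat.min_eq_right h1, ← card_tri] at hG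
    have hE : E d0 (Finset.univ.val.map m) := hG
    have hE2 : E d (Finset.univ.val.map m) := hE.mono hd
    have hE3 : Good ℂ (tri d) (Finset.univ.val.map m) (tri d).card := hE2
    rw [card_tri] at hE3
    rw [hN, Nat.min_eq_right ((Nat.choose_le_choose 2 (by omega)).trans h1)]
    exact hE3

/-- **Almost all systems are non-special in every degree.** -/
theorem almostAll (H : ∀ ε : ℝ, 0 < ε → ∃ C : ℝ, 0 < C ∧ ExactEps ε C) (m0 : ℕ) (h0 : 1 ≤ m0)
    (e : ℝ) (he : 0 < e) :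
    ∃ N0 : ℕ, ∀ N ≥ N0, 0 < (PS m0 N).ncard ∧
      ({ms ∈ PS m0 N | HasSpecial ms}.ncard : ℝ) ≤
        (2 : ℝ) ^ (-((N : ℝ) ^ (1 / 3 - e))) * (PS m0 N).ncard := by
  obtain ⟨s', hs'⟩ := exists_nat_gt (1 / (3 * e))
  obtain ⟨s, hs⟩ : ∃ s : ℕ, s = s' + 2 := ⟨_, rfl⟩
  have hs2 : 2 ≤ s := by omega
  have hs0 : (0 : ℝ) < s := by
    have : 0 < s := by omega
    exact_mod_cast this
  have hse : 1 ≤ 3 * (s : ℝ) * e := by
    rw [div_lt_iff₀ (by positivity)] at hs'
    have : (s' : ℝ) ≤ s := by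
      rw [hs]
      push_cast
      linarith
    nlinarith
  obtain ⟨C, hC0, hC⟩ := H (1 / (6 * (s : ℝ))) (by positivity)
  obtain ⟨T, hT⟩ := exists_nat_gt ((9 * C) ^ 2)
  refine ⟨(100 + Fr m0 + m0 + 12 * s + T) ^ (6 * s), fun N hN => ?_⟩
  obtain ⟨t, ht1, ht2⟩ := exists_root (n := 6 * s) (by omega) N
  have hT2 : 100 + Fr m0 + m0 + 12 * s + T < t + 1 := by
    by_contra hcon
    push Not at hcon
    have := Nat.pow_le_pow_left hcon (6 * s)
    omega
  have ht : 100 ≤ t := by omega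
  have htN : t ≤ N := (Nat.le_self_pow (by omega) t).trans ht1
  obtain ⟨d0, hd1, hd2⟩ := exists_deg N (by omega)
  have hfew := few h0 hs2 ht (by omega) (by omega) (by omega) ht1 ht2
  have hd3 := deg_ge ht1 hd2 (by
    have := Nat.le_self_pow (n := 3 * s) (by omega) t
    omega)
  have hnum := exact_num (C := C) (d := d0) (s := s) (t := t) (by omega) hC0 (by omega) (by
    have : (T : ℝ) ≤ t := by
      have : T ≤ t := by omega
      exact_mod_cast this
    linarith) hd3
  have hsub : {ms ∈ PS m0 N | HasSpecial ms} ⊆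
      {ms ∈ PS m0 N | ∃ m ∈ ms, 9 * t ^ (3 * s - 1) - 1 < m} := by
    rintro ms ⟨hms, h, m, d, hm, hns⟩
    refine ⟨hms, ?_⟩
    by_contra hcon
    push Not at hcon
    apply hns
    refine nonspecial_all hC (M := 9 * t ^ (3 * s - 1) - 1) (N := N) (d0 := d0) (fun i => ?_) ?_
      hd1 hnum d
    · apply hcon
      rw [← hm]
      exact Multiset.mem_map_of_mem m (Finset.mem_univ_val i)
    · rw [← hms.2, ← hm, Multiset.map_map]
      rfl
  have hle := Set.ncard_le_ncard hsub ((PS_finite h0 N).subset (Set.sep_subset _ _))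
  refine ⟨P_pos h0 (by omega), ?_⟩
  exact real_bound (by omega) hse (by omega) ht2 ((Nat.mul_le_mul_left _ hle).trans hfew)

end Pool.Agent.helper73.AB
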