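import Pool.Agent.helper73.AA.Num

set_option autoImplicit false

/-!
# Almost all multisets of multiplicities have small maximum: numbers for the exponent `1 / 3 - e`

`N` between `t ^ (6 s)` and `(t + 1) ^ (6 s)`, `k = 8 t ^ (4 s)`, `B = 2 t ^ (2 s)`,
`j = 2 (t + 1) ^ (2 s - 2)`, `M + 1 = 9 t ^ (3 s - 1)`.
-/

namespace Pool.Agent.helper73.AB

open Pool.Agent.helper73.AA

lemma exists_root {n : ℕ} (hn : n ≠ 0) (N : ℕ) : ∃ t : ℕ, t ^ n ≤ N ∧ N < (t + 1) ^ n := by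
  classical
  have hex : ∃ t : ℕ, N < (t + 1) ^ n :=
    ⟨N, by
      calc N < N + 1 := Nat.lt_succ_self N
        _ ≤ (N + 1) ^ n := Nat.le_self_pow hn _⟩
  refine ⟨Nat.find hex, ?_, Nat.find_spec hex⟩
  rcases Nat.eq_zero_or_pos (Nat.find hex) with h | h
  · rw [h, zero_pow hn]; simp
  · have h1 := Nat.find_min hex (m := Nat.find hex - 1) (by omega)
    rw [Nat.sub_add_cancel h] at h1
    exact Nat.le_of_not_lt h1

/-- `(t + 1) ^ n ≤ 2 t ^ n` -/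
lemma pow_le_two {t n : ℕ} (ht : 2 * n ≤ t + 1) : (t + 1) ^ n ≤ 2 * t ^ n := by
  have hu : (0 : ℝ) < (t : ℝ) + 1 := by positivity
  have h1 := one_add_mul_le_pow (a := -(1 / ((t : ℝ) + 1))) (by
    have : 1 / ((t : ℝ) + 1) ≤ 1 := by
      rw [div_le_one hu]
      have := Nat.cast_nonneg (α := ℝ) t
      linarith
    linarith) n
  have h2 : 1 + -(1 / ((t : ℝ) + 1)) = t / (t + 1) := by
    field_simp
    ring
  rw [h2, div_pow] at h1
  have h3 : (n : ℝ) * (1 / ((t : ℝ) + 1)) ≤ 1 / 2 := by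
    rw [mul_one_div, div_le_iff₀ hu]
    have : (2 : ℝ) * n ≤ t + 1 := by exact_mod_cast ht
    linarith
  have h4 : (1 : ℝ) / 2 ≤ (t : ℝ) ^ n / ((t : ℝ) + 1) ^ n := by
    refine le_trans ?_ h1
    linarith
  have hp : (0 : ℝ) < ((t : ℝ) + 1) ^ n := by positivity
  rw [le_div_iff₀ hp] at h4
  have h5 : ((t : ℝ) + 1) ^ n ≤ 2 * (t : ℝ) ^ n := by linarith
  exact_mod_cast h5

/-- `u ^ (6 s) ≤ 2 ^ (u ^ (2 s - 2))` -/
lemma pow_two_ge {u s : ℕ} (hs : 2 ≤ s) (hu : 6 * s ≤ u) : u ^ (6 * s) ≤ 2 ^ (u ^ (2 * s - 2)) := by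
  have h1 : u ^ (6 * s) ≤ (2 ^ u) ^ (6 * s) := Nat.pow_le_pow_left (Nat.lt_two_pow_self).le _
  have h2 : u * (6 * s) ≤ u ^ (2 * s - 2) := by
    calc u * (6 * s) ≤ u * u := Nat.mul_le_mul_left _ hu
      _ = u ^ 2 := by ring
      _ ≤ u ^ (2 * s - 2) := Nat.pow_le_pow_right (by omega) (by omega)
  calc u ^ (6 * s) ≤ (2 ^ u) ^ (6 * s) := h1
    _ = 2 ^ (u * (6 * s)) := (pow_mul 2 u (6 * s)).symm
    _ ≤ 2 ^ (u ^ (2 * s - 2)) := Nat.pow_le_pow_right (by norm_num) h2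

/-- few multisets have an element `≥ 9 t ^ (3 s - 1)` -/
theorem few {m0 : ℕ} (h0 : 1 ≤ m0) {s t N : ℕ} (hs : 2 ≤ s) (ht : 100 ≤ t) (hst : 12 * s ≤ t)
    (htF : Fr m0 ≤ t) (htm : m0 ≤ t) (h1 : t ^ (6 * s) ≤ N) (h2 : N < (t + 1) ^ (6 * s)) :
    2 ^ ((t + 1) ^ (2 * s - 2)) * {ms ∈ PS m0 N | ∃ m ∈ ms, 9 * t ^ (3 * s - 1) - 1 < m}.ncard ≤
      P m0 N := by
  obtain ⟨a, ha⟩ : ∃ a, a = t ^ (2 * s) := ⟨_, rfl⟩
  obtain ⟨b, hb⟩ : ∃ b, b = t ^ (3 * s - 1) := ⟨_, rfl⟩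
  obtain ⟨c, hc⟩ : ∃ c, c = (t + 1) ^ (2 * s - 2) := ⟨_, rfl⟩
  have ht1 : 1 ≤ t := by omega
  -- powers
  have e4 : t ^ (4 * s) = a * a := by rw [ha, ← pow_add]; congr 1; omega
  have e6 : t ^ (6 * s) = a * (a * a) := by rw [ha, ← pow_add, ← pow_add]; congr 1; omega
  have hat : t * t ≤ a := by
    calc t * t = t ^ 2 := by ring
      _ ≤ a := by rw [ha]; exact Nat.pow_le_pow_right ht1 (by omega)
  have htt : 100 * t ≤ t * t := Nat.mul_le_mul_right _ ht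
  have hbt : t ≤ b := by rw [hb]; exact Nat.le_self_pow (by omega) t
  have hbb : b * b * (t * t) = a * (a * a) := by
    rw [hb, ha]
    calc t ^ (3 * s - 1) * t ^ (3 * s - 1) * (t * t) = t ^ (3 * s - 1 + (3 * s - 1) + 2) := by
          rw [pow_add, pow_add]; ring
      _ = t ^ (2 * s + (2 * s + 2 * s)) := by congr 1; omega
      _ = _ := by rw [pow_add, pow_add]
  have hcc : c * (a * a) ≤ 2 * (b * b) := by
    have h3 : c ≤ 2 * t ^ (2 * s - 2) := by rw [hc]; exact pow_le_two (by omega)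
    calc c * (a * a) ≤ 2 * t ^ (2 * s - 2) * (a * a) := Nat.mul_le_mul_right _ h3
      _ = 2 * t ^ (2 * s - 2 + (2 * s + 2 * s)) := by rw [ha, pow_add, pow_add]; ring
      _ = 2 * t ^ (3 * s - 1 + (3 * s - 1)) := by congr 2; omega
      _ = 2 * (b * b) := by rw [hb, pow_add]
  have hN2 : N ≤ 2 * (a * (a * a)) := by
    rw [← e6]
    exact h2.le.trans (pow_le_two (by omega))
  rw [e6] at h1
  have hta : t ≤ a := by omega
  have ha0 : 0 < a := by omega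
  have haa : a ≤ a * a := Nat.le_mul_self a
  have hN0 : 0 < N := lt_of_lt_of_le (by positivity) h1
  have hbbt : t ≤ b * b := hbt.trans (Nat.le_mul_self b)
  have hj : 2 * c * (8 * (a * a)) ≤ 32 * (b * b) := by
    calc 2 * c * (8 * (a * a)) = 16 * (c * (a * a)) := by ring
      _ ≤ 16 * (2 * (b * b)) := Nat.mul_le_mul_left _ hcc
      _ = 32 * (b * b) := by ring
  have hfb := few_big h0 (N := N) (k := 8 * (a * a)) (B := 2 * a) (j := 2 * c)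
    (M := 9 * b - 1) (by positivity) (by
      have h3 := two_tr (2 * a)
      have h4 : 2 * a * (2 * a + 1) = 4 * (a * a) + 2 * a := by ring
      omega) (by
      refine hj.trans ?_
      refine le_trans ?_ h1
      rw [← hbb]
      have : 32 ≤ t * t := by omega
      calc 32 * (b * b) = b * b * 32 := by ring
        _ ≤ b * b * (t * t) := Nat.mul_le_mul_left _ this) (by
      have h3 : 3 * a ≤ 2 * (2 * a + 1 - m0) := by omega
      have h4 : 7 * (a * a) ≤ 8 * (a * a) - Fr m0 := by omega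
      have h5 : 3 * a * (7 * (a * a)) ≤ 2 * (2 * a + 1 - m0) * (8 * (a * a) - Fr m0) :=
        Nat.mul_le_mul h3 h4
      have h6 : 3 * a * (7 * (a * a)) = 21 * (a * (a * a)) := by ring
      have h7 : 2 * (2 * a + 1 - m0) * (8 * (a * a) - Fr m0) =
        2 * ((2 * a + 1 - m0) * (8 * (a * a) - Fr m0)) := by ring
      omega) (by
      rw [Nat.sub_add_cancel (by omega)]
      have h3 := two_tr (9 * b)
      have h4 : 9 * b * (9 * b + 1) = 81 * (b * b) + 9 * b := by ring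
      omega) (by
      rw [Nat.sub_add_cancel (by omega)]
      omega)
  rw [← hb, ← hc]
  -- divide by `N`
  have h3 : N ≤ 2 ^ c := by
    rw [hc]
    exact h2.le.trans (pow_two_ge hs (by omega))
  obtain ⟨x, hx⟩ : ∃ x, x = {ms ∈ PS m0 N | ∃ m ∈ ms, 9 * b - 1 < m}.ncard := ⟨_, rfl⟩
  rw [← hx] at hfb ⊢
  have h4 : 2 ^ (2 * c) = 2 ^ c * 2 ^ c := by
    rw [← pow_add]; congr 1; ring
  have h5 : N * (2 ^ c * x) ≤ N * P m0 N := by
    calc N * (2 ^ c * x) ≤ 2 ^ c * (2 ^ c * x) := Nat.mul_le_mul_right _ h3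
      _ = 2 ^ (2 * c) * x := by rw [h4]; ring
      _ ≤ _ := hfb
  exact Nat.le_of_mul_le_mul_left h5 hN0

lemma deg_ge {d N s t : ℕ} (h1 : t ^ (6 * s) ≤ N) (h2 : N < (d + 3).choose 2)
    (ht : 4 ≤ t ^ (3 * s)) : t ^ (3 * s) ≤ d := by
  obtain ⟨x, hx⟩ : ∃ x, x = t ^ (3 * s) := ⟨_, rfl⟩
  have h3 := two_tr (d + 2)
  unfold tr at h3
  have h5 : t ^ (6 * s) = x * x := by rw [hx, ← pow_add]; congr 1; omega
  rw [← hx] at ht ⊢
  rw [h5] at h1
  by_contra hcon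
  push Not at hcon
  have h6 : (d + 2) * (d + 2 + 1) ≤ (x + 1) * (x + 2) := Nat.mul_le_mul (by omega) (by omega)
  have h7 : 2 * (x * x) < (x + 1) * (x + 2) := by
    calc 2 * (x * x) ≤ 2 * N := Nat.mul_le_mul_left _ h1
      _ < 2 * (d + 3).choose 2 := by omega
      _ = (d + 2) * (d + 2 + 1) := h3
      _ ≤ _ := h6
  nlinarith

/-- the multiplicities are small -/
lemma exact_num {C : ℝ} {d s t : ℕ} (hs : 1 ≤ s) (hC : 0 < C) (ht9 : 9 ≤ t)
    (ht : (9 * C) ^ 2 ≤ (t : ℝ)) (hd : t ^ (3 * s) ≤ d) :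
    C * (((9 * t ^ (3 * s - 1) - 1 : ℕ) : ℝ) + 1) ^ (1 + 1 / (6 * (s : ℝ))) ≤ (d : ℝ) := by
  have ht0 : (0 : ℝ) < t := by
    have : 0 < t := by omega
    exact_mod_cast this
  have hs0 : (0 : ℝ) < s := by exact_mod_cast hs
  have e1 : (((9 * t ^ (3 * s - 1) - 1 : ℕ) : ℝ) + 1) = 9 * (t : ℝ) ^ (3 * s - 1) := by
    have h1 : 1 ≤ 9 * t ^ (3 * s - 1) := by
      have : 1 ≤ t ^ (3 * s - 1) := Nat.one_le_pow _ _ (by omega)
      omega
    rw [Nat.cast_sub h1]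
    push_cast
    ring
  rw [e1]
  obtain ⟨y, hy⟩ : ∃ y : ℝ, y = 9 * (t : ℝ) ^ (3 * s - 1) := ⟨_, rfl⟩
  rw [← hy]
  have hy0 : 0 < y := by rw [hy]; positivity
  have hyt : y ≤ (t : ℝ) ^ (3 * s) := by
    have h1 : (t : ℝ) ^ (3 * s) = t * (t : ℝ) ^ (3 * s - 1) := by
      rw [← pow_succ']
      congr 1
      omega
    rw [hy, h1]
    apply mul_le_mul_of_nonneg_right _ (by positivity)
    exact_mod_cast ht9
  rw [Real.rpow_add hy0, Real.rpow_one]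
  have h2 : y ^ (1 / (6 * (s : ℝ))) ≤ Real.sqrt t := by
    calc y ^ (1 / (6 * (s : ℝ))) ≤ ((t : ℝ) ^ (3 * s)) ^ (1 / (6 * (s : ℝ))) :=
          Real.rpow_le_rpow hy0.le hyt (by positivity)
      _ = (t : ℝ) ^ (((3 * s : ℕ) : ℝ) * (1 / (6 * (s : ℝ)))) := by
          rw [Real.rpow_mul ht0.le, Real.rpow_natCast]
      _ = (t : ℝ) ^ (1 / 2 : ℝ) := by
          congr 1
          push_cast
          field_simp
          norm_num
      _ = Real.sqrt t := (Real.sqrt_eq_rpow _).symm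
  have h3 : 9 * C ≤ Real.sqrt t := Real.le_sqrt_of_sq_le ht
  have hsq : Real.sqrt t * Real.sqrt t = t := Real.mul_self_sqrt ht0.le
  have hsq0 : 0 ≤ Real.sqrt t := Real.sqrt_nonneg _
  calc C * (y * y ^ (1 / (6 * (s : ℝ)))) ≤ C * (y * Real.sqrt t) := by
        apply mul_le_mul_of_nonneg_left _ hC.le
        exact mul_le_mul_of_nonneg_left h2 hy0.le
    _ = (9 * C * Real.sqrt t) * (t : ℝ) ^ (3 * s - 1) := by rw [hy]; ring
    _ ≤ (Real.sqrt t * Real.sqrt t) * (t : ℝ) ^ (3 * s - 1) := by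
        apply mul_le_mul_of_nonneg_right _ (by positivity)
        exact mul_le_mul_of_nonneg_right h3 hsq0
    _ = (t : ℝ) ^ (3 * s) := by
        rw [hsq, ← pow_succ']
        congr 1
        omega
    _ ≤ d := by exact_mod_cast hd

/-- from `2 ^ n` to the real power -/
lemma real_bound {N s t b P : ℕ} {e : ℝ} (hs : 1 ≤ s) (he : 1 ≤ 3 * s * e) (hN : 1 ≤ N)
    (h2 : N < (t + 1) ^ (6 * s)) (h : 2 ^ ((t + 1) ^ (2 * s - 2)) * b ≤ P) :
    (b : ℝ) ≤ (2 : ℝ) ^ (-((N : ℝ) ^ (1 / 3 - e))) * P := by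
  have hs0 : (0 : ℝ) < s := by exact_mod_cast hs
  obtain ⟨n, hn⟩ : ∃ n : ℕ, n = (t + 1) ^ (2 * s - 2) := ⟨_, rfl⟩
  have h3 : (N : ℝ) ^ (1 / 3 - e) ≤ (n : ℝ) := by
    have hN1 : (1 : ℝ) ≤ N := by exact_mod_cast hN
    have hu : (0 : ℝ) ≤ ((t + 1 : ℕ) : ℝ) := Nat.cast_nonneg _
    have h4 : (N : ℝ) ≤ ((t + 1 : ℕ) : ℝ) ^ (6 * s) := by
      rw [← Nat.cast_pow]
      exact Nat.cast_le.mpr h2.le
    have hexp : 1 / 3 - e ≤ ((2 * s - 2 : ℕ) : ℝ) / (6 * s) := by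
      rw [le_div_iff₀ (by positivity)]
      have : ((2 * s - 2 : ℕ) : ℝ) = 2 * s - 2 := by
        rw [Nat.cast_sub (by omega)]
        push_cast
        ring
      rw [this]
      nlinarith
    calc (N : ℝ) ^ (1 / 3 - e) ≤ (N : ℝ) ^ (((2 * s - 2 : ℕ) : ℝ) / (6 * s)) :=
          Real.rpow_le_rpow_of_exponent_le hN1 hexp
      _ ≤ (((t + 1 : ℕ) : ℝ) ^ (6 * s)) ^ (((2 * s - 2 : ℕ) : ℝ) / (6 * s)) :=
          Real.rpow_le_rpow (by linarith) h4 (by positivity)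
      _ = ((t + 1 : ℕ) : ℝ) ^ (((6 * s : ℕ) : ℝ) * (((2 * s - 2 : ℕ) : ℝ) / (6 * s))) := by
          rw [Real.rpow_mul hu, Real.rpow_natCast]
      _ = ((t + 1 : ℕ) : ℝ) ^ ((2 * s - 2 : ℕ) : ℝ) := by
          congr 1
          push_cast
          field_simp
      _ = (n : ℝ) := by rw [Real.rpow_natCast, hn, Nat.cast_pow]
  rw [← hn] at h
  have h5 : (2 : ℝ) ^ ((N : ℝ) ^ (1 / 3 - e)) * b ≤ P := by
    calc (2 : ℝ) ^ ((N : ℝ) ^ (1 / 3 - e)) * b ≤ (2 : ℝ) ^ (n : ℝ) * b := by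
          apply mul_le_mul_of_nonneg_right _ (Nat.cast_nonneg _)
          exact Real.rpow_le_rpow_of_exponent_le (by norm_num) h3
      _ = ((2 ^ n * b : ℕ) : ℝ) := by
          rw [Real.rpow_natCast]
          push_cast
          rfl
      _ ≤ P := Nat.cast_le.mpr h
  have h6 : (0 : ℝ) < (2 : ℝ) ^ ((N : ℝ) ^ (1 / 3 - e)) := Real.rpow_pos_of_pos (by norm_num) _
  rw [Real.rpow_neg (by norm_num), inv_mul_eq_div, le_div_iff₀ h6, mul_comm]
  exact h5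

end Pool.Agent.helper73.AB
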